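import Pool.Agent.Helper44.KS.GoalsC

/-!
# Packet KS-CEL: counting of the mean positions in cells
-/

namespace Pool.Agent.Helper12.KS

open MeasureTheory Filter Topology Set
open Pool.Agent.Helper44.KS

noncomputable section

/-- The field `cnt` with a Finset filter. -/
theorem cnt_filter {c : ℝ} (Z : KSys c) (u : ℝ) :
    ((Finset.univ.filter fun p => u ≤ Z.a p ∧ Z.a p < u + 1).card : ℝ) ≤ 15 * Z.S := by
  have h := Z.cnt u
  rw [Fintype.card_subtype] at h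
  exact h

theorem S_nonneg {c : ℝ} (Z : KSys c) : 0 ≤ Z.S := le_trans zero_le_one Z.one_le

/-- CNT. -/
theorem cnt : S_CNT := by
  intro c Z u v huv
  have hS := S_nonneg Z
  set s := Finset.univ.filter fun p => u ≤ Z.a p ∧ Z.a p ≤ v with hs
  set k := ⌊v - u⌋₊ with hk
  have hmaps : ∀ p ∈ s, ⌊Z.a p - u⌋₊ ∈ Finset.range (k + 1) := by
    intro p hp
    rw [hs, Finset.mem_filter] at hp
    rw [Finset.mem_range]
    have : ⌊Z.a p - u⌋₊ ≤ k := Nat.floor_le_floor (by linarith [hp.2.2])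
    omega
  have hcard := Finset.card_eq_sum_card_fiberwise hmaps
  have hfib : ∀ i ∈ Finset.range (k + 1),
      ((s.filter fun p => ⌊Z.a p - u⌋₊ = i).card : ℝ) ≤ 15 * Z.S := by
    intro i _
    refine le_trans ?_ (cnt_filter Z (u + i))
    have : (s.filter fun p => ⌊Z.a p - u⌋₊ = i) ⊆
        Finset.univ.filter fun p => u + i ≤ Z.a p ∧ Z.a p < u + i + 1 := by
      intro p hp
      rw [Finset.mem_filter, hs, Finset.mem_filter] at hp
      obtain ⟨⟨_, h1, _⟩, h3⟩ := hp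
      have h0 : 0 ≤ Z.a p - u := by linarith
      rw [Nat.floor_eq_iff h0] at h3
      rw [Finset.mem_filter]
      exact ⟨Finset.mem_univ _, by linarith [h3.1], by linarith [h3.2]⟩
    exact_mod_cast Finset.card_le_card this
  have hk1 : (k : ℝ) ≤ v - u := Nat.floor_le (by linarith)
  calc (s.card : ℝ) = ∑ i ∈ Finset.range (k + 1), ((s.filter fun p => ⌊Z.a p - u⌋₊ = i).card : ℝ) := by
        rw [hcard]; push_cast; rfl
    _ ≤ ∑ i ∈ Finset.range (k + 1), 15 * Z.S := Finset.sum_le_sum hfib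
    _ = (k + 1) * (15 * Z.S) := by
        rw [Finset.sum_const, Finset.card_range, nsmul_eq_mul]; push_cast; ring
    _ ≤ (v - u + 2) * (15 * Z.S) := by
        apply mul_le_mul_of_nonneg_right _ (by positivity)
        linarith
    _ = 15 * (v - u + 2) * Z.S := by ring

/-- The elements with `⌊|a p|⌋ = m`. -/
theorem card_abs_cell {c : ℝ} (Z : KSys c) (m : ℕ) :
    ((Finset.univ.filter fun p => ⌊|Z.a p|⌋₊ = m).card : ℝ) ≤ 45 * Z.S := by
  have h1 := cnt_filter Z (m : ℝ)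
  have h2 := cnt_filter Z (-(m : ℝ) - 1)
  have h3 := cnt_filter Z (-(m : ℝ))
  have hsub : (Finset.univ.filter fun p => ⌊|Z.a p|⌋₊ = m) ⊆
      ((Finset.univ.filter fun p => (m : ℝ) ≤ Z.a p ∧ Z.a p < (m : ℝ) + 1) ∪
      (Finset.univ.filter fun p => (-(m : ℝ) - 1) ≤ Z.a p ∧ Z.a p < (-(m : ℝ) - 1) + 1)) ∪
      (Finset.univ.filter fun p => (-(m : ℝ)) ≤ Z.a p ∧ Z.a p < (-(m : ℝ)) + 1) := by
    intro p hp
    rw [Finset.mem_filter] at hp
    have hf := hp.2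
    rw [Nat.floor_eq_iff (abs_nonneg _)] at hf
    simp only [Finset.mem_union, Finset.mem_filter, Finset.mem_univ, true_and]
    rcases le_or_gt 0 (Z.a p) with h | h
    · rw [abs_of_nonneg h] at hf
      exact Or.inl (Or.inl hf)
    · rw [abs_of_neg h] at hf
      rcases lt_or_ge (Z.a p) (-(m : ℝ)) with h' | h'
      · exact Or.inl (Or.inr ⟨by linarith [hf.2], by linarith⟩)
      · exact Or.inr ⟨h', by linarith [hf.1]⟩
  have hc : ((Finset.univ.filter fun p => ⌊|Z.a p|⌋₊ = m).card : ℝ) ≤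
      ((Finset.univ.filter fun p => (m : ℝ) ≤ Z.a p ∧ Z.a p < (m : ℝ) + 1).card : ℝ) +
      ((Finset.univ.filter fun p => (-(m : ℝ) - 1) ≤ Z.a p ∧ Z.a p < (-(m : ℝ) - 1) + 1).card : ℝ) +
      ((Finset.univ.filter fun p => (-(m : ℝ)) ≤ Z.a p ∧ Z.a p < (-(m : ℝ)) + 1).card : ℝ) := by
    have := Finset.card_le_card hsub
    have h5 := Finset.card_union_le
      ((Finset.univ.filter fun p => (m : ℝ) ≤ Z.a p ∧ Z.a p < (m : ℝ) + 1) ∪
      (Finset.univ.filter fun p => (-(m : ℝ) - 1) ≤ Z.a p ∧ Z.a p < (-(m : ℝ) - 1) + 1))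
      (Finset.univ.filter fun p => (-(m : ℝ)) ≤ Z.a p ∧ Z.a p < (-(m : ℝ)) + 1)
    have h6 := Finset.card_union_le
      (Finset.univ.filter fun p => (m : ℝ) ≤ Z.a p ∧ Z.a p < (m : ℝ) + 1)
      (Finset.univ.filter fun p => (-(m : ℝ) - 1) ≤ Z.a p ∧ Z.a p < (-(m : ℝ) - 1) + 1)
    have h7 := le_trans this (le_trans h5 (Nat.add_le_add_right h6 _))
    have h8 : ((Finset.univ.filter fun p => ⌊|Z.a p|⌋₊ = m).card : ℝ) ≤ ((((Finset.univ.filter
        fun p => (m : ℝ) ≤ Z.a p ∧ Z.a p < (m : ℝ) + 1).card + (Finset.univ.filter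
        fun p => (-(m : ℝ) - 1) ≤ Z.a p ∧ Z.a p < (-(m : ℝ) - 1) + 1).card + (Finset.univ.filter
        fun p => (-(m : ℝ)) ≤ Z.a p ∧ Z.a p < (-(m : ℝ)) + 1).card : ℕ)) : ℝ) := Nat.cast_le.mpr h7
    rw [Nat.cast_add, Nat.cast_add] at h8
    exact h8
  linarith

/-- A telescoping bound. -/
theorem sum_Ico_sq (M N : ℕ) :
    ∑ m ∈ Finset.Ico M N, 1 / (1 + (m : ℝ)) ^ 2 ≤ 2 / (1 + (M : ℝ)) := by
  have key : ∀ N : ℕ, M ≤ N →
      ∑ m ∈ Finset.Ico M N, 1 / (1 + (m : ℝ)) ^ 2 ≤ 2 / (1 + (M : ℝ)) - 2 / (1 + (N : ℝ)) := by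
    intro N hN
    induction N, hN using Nat.le_induction with
    | base => simp
    | succ n hn ih =>
      rw [Finset.sum_Ico_succ_top hn]
      have : 1 / (1 + (n : ℝ)) ^ 2 ≤ 2 / (1 + (n : ℝ)) - 2 / (1 + ((n + 1 : ℕ) : ℝ)) := by
        have hn0 : (0 : ℝ) ≤ n := Nat.cast_nonneg n
        push_cast
        rw [div_sub_div _ _ (by positivity) (by positivity), div_le_div_iff₀ (by positivity) (by positivity)]
        nlinarith [mul_nonneg hn0 hn0, mul_nonneg (mul_nonneg hn0 hn0) hn0]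
      linarith
  rcases le_or_gt M N with h | h
  · have := key N h
    have h2 : 0 ≤ 2 / (1 + (N : ℝ)) := by positivity
    linarith
  · rw [Finset.Ico_eq_empty (by omega)]
    simp only [Finset.sum_empty]
    positivity

/-- CEL. -/
theorem cel : S_CEL := by
  refine ⟨180, by norm_num, ?_⟩
  intro c Z J hJ
  have hS := S_nonneg Z
  set s := Finset.univ.filter (fun p => J ≤ |Z.a p|) with hs
  set M := ⌊J⌋₊ with hM
  -- an upper bound for the cells
  obtain ⟨N, hN⟩ : ∃ N : ℕ, ∀ p : Fin Z.n, ⌊|Z.a p|⌋₊ < N := by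
    refine ⟨(Finset.univ.sup fun p => ⌊|Z.a p|⌋₊) + 1, fun p => ?_⟩
    exact Nat.lt_succ_of_le (Finset.le_sup (f := fun p => ⌊|Z.a p|⌋₊) (Finset.mem_univ p))
  have hmaps : ∀ p ∈ s, ⌊|Z.a p|⌋₊ ∈ Finset.Ico M N := by
    intro p hp
    rw [hs, Finset.mem_filter] at hp
    rw [Finset.mem_Ico]
    exact ⟨Nat.floor_le_floor hp.2, hN p⟩
  rw [← Finset.sum_fiberwise_of_maps_to hmaps]
  have hfib : ∀ m ∈ Finset.Ico M N,
      ∑ p ∈ s.filter (fun p => ⌊|Z.a p|⌋₊ = m), 1 / (1 + |Z.a p|) ^ 2 ≤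
        45 * Z.S * (1 / (1 + (m : ℝ)) ^ 2) := by
    intro m _
    have hb : ∀ p ∈ s.filter (fun p => ⌊|Z.a p|⌋₊ = m), 1 / (1 + |Z.a p|) ^ 2 ≤
        1 / (1 + (m : ℝ)) ^ 2 := by
      intro p hp
      rw [Finset.mem_filter] at hp
      have hf := hp.2
      rw [Nat.floor_eq_iff (abs_nonneg _)] at hf
      apply one_div_le_one_div_of_le (by positivity)
      apply pow_le_pow_left₀ (by positivity)
      linarith [hf.1]
    calc ∑ p ∈ s.filter (fun p => ⌊|Z.a p|⌋₊ = m), 1 / (1 + |Z.a p|) ^ 2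
        ≤ ∑ p ∈ s.filter (fun p => ⌊|Z.a p|⌋₊ = m), 1 / (1 + (m : ℝ)) ^ 2 := Finset.sum_le_sum hb
      _ = ((s.filter (fun p => ⌊|Z.a p|⌋₊ = m)).card : ℝ) * (1 / (1 + (m : ℝ)) ^ 2) := by
          rw [Finset.sum_const, nsmul_eq_mul]
      _ ≤ 45 * Z.S * (1 / (1 + (m : ℝ)) ^ 2) := by
          apply mul_le_mul_of_nonneg_right _ (by positivity)
          refine le_trans ?_ (card_abs_cell Z m)
          have : s.filter (fun p => ⌊|Z.a p|⌋₊ = m) ⊆
              Finset.univ.filter fun p => ⌊|Z.a p|⌋₊ = m := by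
            intro p hp
            rw [Finset.mem_filter] at hp ⊢
            exact ⟨Finset.mem_univ _, hp.2⟩
          exact_mod_cast Finset.card_le_card this
  have hMJ : J < (M : ℝ) + 1 := Nat.lt_floor_add_one J
  calc ∑ m ∈ Finset.Ico M N, ∑ p ∈ s.filter (fun p => ⌊|Z.a p|⌋₊ = m), 1 / (1 + |Z.a p|) ^ 2
      ≤ ∑ m ∈ Finset.Ico M N, 45 * Z.S * (1 / (1 + (m : ℝ)) ^ 2) := Finset.sum_le_sum hfib
    _ = 45 * Z.S * ∑ m ∈ Finset.Ico M N, (1 / (1 + (m : ℝ)) ^ 2) := by rw [Finset.mul_sum]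
    _ ≤ 45 * Z.S * (2 / (1 + (M : ℝ))) :=
        mul_le_mul_of_nonneg_left (sum_Ico_sq M N) (by positivity)
    _ ≤ 45 * Z.S * (4 / (1 + J)) := by
        apply mul_le_mul_of_nonneg_left _ (by positivity)
        rw [div_le_div_iff₀ (by positivity) (by positivity)]
        have hM0 : (0 : ℝ) ≤ M := Nat.cast_nonneg M
        nlinarith
    _ = 180 * Z.S / (1 + J) := by ring

end

end Pool.Agent.Helper12.KS
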