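import Pool.Agent.Helper75.KS.GoalsB

/-!
# Packet KS-EHA: the inequality of Edelman, Hibi and Stanley
-/

namespace Pool.Agent.Helper12.KS

open Finset
open Pool.Agent.Helper75.KS

variable {n : ℕ}

theorem mem_mn {R : Fin n → Fin n → Prop} {X : Finset (Fin n)} {z : Fin n} :
    z ∈ mn R X ↔ z ∈ X ∧ ∀ y ∈ X, ¬ R y z := by
  classical
  unfold mn
  simp only [Finset.mem_filter]

/-- The hypotheses on `X, A, B`. -/
structure AB (R : Fin n → Fin n → Prop) (X A B : Finset (Fin n)) : Prop where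
  sub : A ⊆ X
  anti : ∀ a ∈ A, ∀ b ∈ A, ¬ R a b
  mn : B ⊆ mn R X
  cov : ∀ a ∈ A, ∀ z ∈ Pool.Agent.Helper75.KS.mn R X, (z = a ∨ R z a) → z ∈ B

theorem core {R : Fin n → Fin n → Prop} {f : Finset (Fin n) → ℕ} (hS : Spo R)
    (hrec : ∀ X : Finset (Fin n), X.Nonempty → f X = ∑ z ∈ mn R X, f (X.erase z))
    {X A B : Finset (Fin n)} (ih : ∀ Y, Y ⊂ X → ∀ A B, AB R Y A B →
      ∑ x ∈ A, f (Y.erase x) ≤ ∑ z ∈ B, f (Y.erase z))
    (h : AB R X A B) (hd : ∀ a ∈ A, a ∉ mn R X) :
    ∑ x ∈ A, f (X.erase x) ≤ ∑ z ∈ B, f (X.erase z) := by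
  classical
  rcases A.eq_empty_or_nonempty with rfl | hne
  · simp
  -- the left side
  have hL : ∀ x ∈ A, f (X.erase x) = ∑ z ∈ mn R X, f ((X.erase z).erase x) := by
    intro x hx
    have hxX := h.sub hx
    obtain ⟨y, hyX, hyx⟩ : ∃ y ∈ X, R y x := by
      by_contra hcon
      push Not at hcon
      exact hd x hx (mem_mn.mpr ⟨hxX, hcon⟩)
    have hyne : y ≠ x := by
      rintro rfl
      exact hS.ir _ hyx
    have hmn : mn R (X.erase x) = mn R X := by
      ext z
      rw [mem_mn, mem_mn]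
      constructor
      · rintro ⟨hz, hz2⟩
        have hz' := Finset.mem_erase.mp hz
        refine ⟨hz'.2, ?_⟩
        intro w hw hwz
        by_cases hwx : w = x
        · subst hwx
          exact hz2 y (Finset.mem_erase.mpr ⟨hyne, hyX⟩) (hS.tr _ _ _ hyx hwz)
        · exact hz2 w (Finset.mem_erase.mpr ⟨hwx, hw⟩) hwz
      · rintro ⟨hz, hz2⟩
        refine ⟨Finset.mem_erase.mpr ⟨?_, hz⟩, fun w hw => hz2 w (Finset.mem_of_mem_erase hw)⟩
        rintro rfl
        exact hd z hx (mem_mn.mpr ⟨hz, hz2⟩)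
    have hne' : (X.erase x).Nonempty := ⟨y, Finset.mem_erase.mpr ⟨hyne, hyX⟩⟩
    rw [hrec _ hne', hmn]
    refine Finset.sum_congr rfl fun z _ => ?_
    rw [Finset.erase_right_comm]
  rw [Finset.sum_congr rfl hL, Finset.sum_comm]
  -- facts about `X.erase z`
  have hsub : ∀ z ∈ mn R X, A ⊆ X.erase z := by
    intro z hz a ha
    refine Finset.mem_erase.mpr ⟨?_, h.sub ha⟩
    rintro rfl
    exact hd _ ha hz
  have hssub : ∀ z ∈ mn R X, X.erase z ⊂ X := fun z hz =>
    Finset.erase_ssubset (mem_mn.mp hz).1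
  have hmnsub : ∀ z, ∀ b ∈ mn R X, b ≠ z → b ∈ mn R (X.erase z) := by
    intro z b hb hbz
    rw [mem_mn] at hb ⊢
    exact ⟨Finset.mem_erase.mpr ⟨hbz, hb.1⟩, fun w hw => hb.2 w (Finset.mem_of_mem_erase hw)⟩
  have habove : ∀ z, ∀ y ∈ mn R (X.erase z), y ∉ mn R X → R z y := by
    intro z y hy hy'
    rw [mem_mn] at hy hy'
    have hyX := Finset.mem_of_mem_erase hy.1
    by_contra hcon
    apply hy'
    refine ⟨hyX, ?_⟩
    intro w hw hwy
    by_cases hwz : w = z
    · subst hwz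
      exact hcon hwy
    · exact hy.2 w (Finset.mem_erase.mpr ⟨hwz, hw⟩) hwy
  -- `z ∉ B`
  have h1 : ∀ z ∈ mn R X \ B, ∑ x ∈ A, f ((X.erase z).erase x) ≤
      ∑ b ∈ B, f ((X.erase z).erase b) := by
    intro z hz
    obtain ⟨hz1, hz2⟩ := Finset.mem_sdiff.mp hz
    refine ih _ (hssub z hz1) A B ⟨hsub z hz1, h.anti, ?_, ?_⟩
    · intro b hb
      refine hmnsub z b (h.mn hb) ?_
      rintro rfl
      exact hz2 hb
    · intro a ha y hy hya
      by_cases hyX : y ∈ mn R X
      · exact h.cov a ha y hyX hya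
      · exfalso
        have hzy := habove z y hy hyX
        apply hz2
        refine h.cov a ha z hz1 (Or.inr ?_)
        rcases hya with rfl | hya
        · exact hzy
        · exact hS.tr _ _ _ hzy hya
  -- `z ∈ B`
  have h2 : ∀ z ∈ B, ∑ x ∈ A, f ((X.erase z).erase x) ≤
      ∑ b ∈ B.erase z, f ((X.erase z).erase b) +
        ∑ b ∈ mn R (X.erase z) \ mn R X, f ((X.erase z).erase b) := by
    intro z hz
    have hz1 := h.mn hz
    have hdisj : Disjoint (B.erase z) (mn R (X.erase z) \ mn R X) := by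
      rw [Finset.disjoint_left]
      intro b hb hb'
      exact (Finset.mem_sdiff.mp hb').2 (h.mn (Finset.mem_of_mem_erase hb))
    rw [← Finset.sum_union hdisj]
    refine ih _ (hssub z hz1) A _ ⟨hsub z hz1, h.anti, ?_, ?_⟩
    · intro b hb
      rcases Finset.mem_union.mp hb with hb | hb
      · exact hmnsub z b (h.mn (Finset.mem_of_mem_erase hb)) (Finset.ne_of_mem_erase hb)
      · exact (Finset.mem_sdiff.mp hb).1
    · intro a ha y hy hya
      rw [Finset.mem_union]
      by_cases hyX : y ∈ mn R X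
      · refine Or.inl (Finset.mem_erase.mpr ⟨?_, h.cov a ha y hyX hya⟩)
        have := (mem_mn.mp hy).1
        exact Finset.ne_of_mem_erase this
      · exact Or.inr (Finset.mem_sdiff.mpr ⟨hy, hyX⟩)
  have h3 : ∀ z ∈ B, f (X.erase z) = ∑ b ∈ B.erase z, f ((X.erase z).erase b) +
      ∑ b ∈ mn R X \ B, f ((X.erase z).erase b) +
        ∑ b ∈ mn R (X.erase z) \ mn R X, f ((X.erase z).erase b) := by
    intro z hz
    have hz1 := h.mn hz
    have hne' : (X.erase z).Nonempty := by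
      obtain ⟨a, ha⟩ := hne
      exact ⟨a, hsub z hz1 ha⟩
    have hd1 : Disjoint (B.erase z) (mn R X \ B) := by
      rw [Finset.disjoint_left]
      intro b hb hb'
      exact (Finset.mem_sdiff.mp hb').2 (Finset.mem_of_mem_erase hb)
    have hd2 : Disjoint (B.erase z ∪ (mn R X \ B)) (mn R (X.erase z) \ mn R X) := by
      rw [Finset.disjoint_left]
      intro b hb hb'
      apply (Finset.mem_sdiff.mp hb').2
      rcases Finset.mem_union.mp hb with hb | hb
      · exact h.mn (Finset.mem_of_mem_erase hb)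
      · exact (Finset.mem_sdiff.mp hb).1
    rw [hrec _ hne', ← Finset.sum_union hd1, ← Finset.sum_union hd2]
    congr 1
    ext b
    simp only [Finset.mem_union, Finset.mem_sdiff, Finset.mem_erase]
    constructor
    · intro hb
      have hbz : b ≠ z := Finset.ne_of_mem_erase (mem_mn.mp hb).1
      by_cases hbX : b ∈ mn R X
      · by_cases hbB : b ∈ B
        · exact Or.inl (Or.inl ⟨hbz, hbB⟩)
        · exact Or.inl (Or.inr ⟨hbX, hbB⟩)
      · exact Or.inr ⟨hb, hbX⟩
    · rintro ((⟨hbz, hbB⟩ | ⟨hbX, hbB⟩) | ⟨hb, _⟩)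
      · exact hmnsub z b (h.mn hbB) hbz
      · refine hmnsub z b hbX ?_
        rintro rfl
        exact hbB hz
      · exact hb
  have h4 : ∑ z ∈ B, ∑ b ∈ mn R X \ B, f ((X.erase z).erase b) =
      ∑ z ∈ mn R X \ B, ∑ b ∈ B, f ((X.erase z).erase b) := by
    rw [Finset.sum_comm]
    refine Finset.sum_congr rfl fun z _ => Finset.sum_congr rfl fun b _ => ?_
    rw [Finset.erase_right_comm]
  have hR : ∑ z ∈ B, f (X.erase z) = ∑ z ∈ B, (∑ b ∈ B.erase z, f ((X.erase z).erase b) +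
        ∑ b ∈ mn R (X.erase z) \ mn R X, f ((X.erase z).erase b)) +
      ∑ z ∈ mn R X \ B, ∑ b ∈ B, f ((X.erase z).erase b) := by
    rw [← h4, ← Finset.sum_add_distrib]
    refine Finset.sum_congr rfl fun z hz => ?_
    rw [h3 z hz]
    ring
  rw [hR, ← Finset.sum_sdiff h.mn]
  have e1 := Finset.sum_le_sum h1
  have e2 := Finset.sum_le_sum h2
  omega

theorem main {R : Fin n → Fin n → Prop} {f : Finset (Fin n) → ℕ} (hS : Spo R)
    (hrec : ∀ X : Finset (Fin n), X.Nonempty → f X = ∑ z ∈ mn R X, f (X.erase z))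
    (X : Finset (Fin n)) : ∀ A B, AB R X A B →
      ∑ x ∈ A, f (X.erase x) ≤ ∑ z ∈ B, f (X.erase z) := by
  classical
  induction X using Finset.strongInduction with
  | H X ih =>
    intro A B h
    set A0 := A.filter fun a => a ∈ mn R X with hA0
    have hA0A : A0 ⊆ A := Finset.filter_subset _ _
    have hA0B : A0 ⊆ B := by
      intro a ha
      rw [hA0, Finset.mem_filter] at ha
      exact h.cov a ha.1 a ha.2 (Or.inl rfl)
    have hAB : AB R X (A \ A0) (B \ A0) := by
      refine ⟨?_, ?_, ?_, ?_⟩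
      · exact Finset.Subset.trans Finset.sdiff_subset h.sub
      · intro a ha b hb
        exact h.anti a (Finset.sdiff_subset ha) b (Finset.sdiff_subset hb)
      · exact Finset.Subset.trans Finset.sdiff_subset h.mn
      · intro a ha z hz hza
        obtain ⟨ha1, ha2⟩ := Finset.mem_sdiff.mp ha
        refine Finset.mem_sdiff.mpr ⟨h.cov a ha1 z hz hza, ?_⟩
        intro hzA
        rcases hza with rfl | hza
        · exact ha2 hzA
        · exact h.anti z (hA0A hzA) a ha1 hza
    have hd : ∀ a ∈ A \ A0, a ∉ mn R X := by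
      intro a ha hmn
      obtain ⟨ha1, ha2⟩ := Finset.mem_sdiff.mp ha
      exact ha2 (Finset.mem_filter.mpr ⟨ha1, hmn⟩)
    have := core hS hrec ih hAB hd
    rw [← Finset.sum_sdiff hA0A, ← Finset.sum_sdiff hA0B]
    omega

/-- EHA. -/
theorem eha : EhaStmt := by
  intro n R f hS hrec X A B h1 h2 h3 h4
  exact main hS hrec X A B ⟨h1, h2, h3, h4⟩

end Pool.Agent.Helper12.KS
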