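import Pool.Agent.Helper27.KS.GoalsF
import Pool.Agent.Helper89.GP.Basic

/-!
# Packet KS-NOI: comparison of the exponential model with the positions
-/

namespace Pool.Agent.Helper12.KS

open MeasureTheory
open Pool.Agent.Helper44.KS Pool.Agent.Helper75.KS Pool.Agent.Helper27.KS
open Pool.Agent.Helper89.GP

noncomputable section

/-! ### The Gamma densities -/

/-- The density of the Gamma law with parameter `k + 1`. -/
def w (k : ℕ) (t : ℝ) : ℝ := Real.exp (-t) * t ^ k / (k.factorial : ℝ)

theorem w_nonneg (k : ℕ) {t : ℝ} (ht : 0 ≤ t) : 0 ≤ w k t := by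
  unfold w; positivity

theorem measurable_w (k : ℕ) : Measurable (w k) := by
  unfold w
  fun_prop

theorem integrableOn_exp_pow (k : ℕ) :
    IntegrableOn (fun t : ℝ => Real.exp (-t) * t ^ k) (Set.Ioi 0) := by
  have h := Real.GammaIntegral_convergent (s := (k : ℝ) + 1) (by positivity)
  refine h.congr_fun (fun t _ => ?_) measurableSet_Ioi
  change Real.exp (-t) * t ^ ((k : ℝ) + 1 - 1) = Real.exp (-t) * t ^ k
  rw [add_sub_cancel_right, Real.rpow_natCast]

theorem integral_exp_pow (k : ℕ) :
    ∫ t in Set.Ioi (0 : ℝ), Real.exp (-t) * t ^ k = (k.factorial : ℝ) := by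
  rw [← Real.Gamma_nat_eq_factorial, Real.Gamma_eq_integral (by positivity)]
  refine setIntegral_congr_fun measurableSet_Ioi fun t _ => ?_
  rw [add_sub_cancel_right, Real.rpow_natCast]

theorem integrableOn_w_pow (k j : ℕ) :
    IntegrableOn (fun t : ℝ => w k t * t ^ j) (Set.Ioi 0) := by
  have h : IntegrableOn (fun t : ℝ => (k.factorial : ℝ)⁻¹ * (Real.exp (-t) * t ^ (k + j)))
      (Set.Ioi 0) := (integrableOn_exp_pow (k + j)).const_mul ((k.factorial : ℝ)⁻¹)
  refine h.congr_fun (fun t _ => ?_) measurableSet_Ioi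
  simp only [w, pow_add]
  ring

theorem integral_w_pow (k j : ℕ) :
    ∫ t in Set.Ioi (0 : ℝ), w k t * t ^ j = ((k + j).factorial : ℝ) / k.factorial := by
  rw [← integral_exp_pow (k + j), div_eq_inv_mul, ← integral_const_mul]
  refine setIntegral_congr_fun measurableSet_Ioi fun t _ => ?_
  simp only [w, pow_add]
  ring

theorem integrableOn_w (k : ℕ) : IntegrableOn (w k) (Set.Ioi 0) := by
  simpa using integrableOn_w_pow k 0

theorem integral_w (k : ℕ) : ∫ t in Set.Ioi (0 : ℝ), w k t = 1 := by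
  have h := integral_w_pow k 0
  simp only [pow_zero, mul_one, add_zero] at h
  rw [h, div_self]
  positivity

theorem integrableOn_w_id (k : ℕ) : IntegrableOn (fun t => w k t * t) (Set.Ioi 0) := by
  simpa using integrableOn_w_pow k 1

theorem integral_w_id (k : ℕ) : ∫ t in Set.Ioi (0 : ℝ), w k t * t = (k : ℝ) + 1 := by
  have h := integral_w_pow k 1
  simp only [pow_one] at h
  rw [h, Nat.factorial_succ]
  have : (k.factorial : ℝ) ≠ 0 := by positivity
  push_cast
  field_simp

theorem integral_w_sq (k : ℕ) :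
    ∫ t in Set.Ioi (0 : ℝ), w k t * t ^ 2 = ((k : ℝ) + 2) * ((k : ℝ) + 1) := by
  rw [integral_w_pow k 2, Nat.factorial_succ, Nat.factorial_succ]
  have : (k.factorial : ℝ) ≠ 0 := by positivity
  push_cast
  field_simp
  ring

theorem integrableOn_w_dev (k : ℕ) (b : ℝ) :
    IntegrableOn (fun t => w k t * |t - b|) (Set.Ioi 0) := by
  have h1 : IntegrableOn (fun t => w k t * (t - b)) (Set.Ioi 0) := by
    have : IntegrableOn (fun t => w k t * t - w k t * b) (Set.Ioi 0) :=
      (integrableOn_w_id k).sub ((integrableOn_w k).mul_const b)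
    refine this.congr_fun (fun t _ => ?_) measurableSet_Ioi
    ring
  have h2 : IntegrableOn (fun t => ‖w k t * (t - b)‖) (Set.Ioi 0) := h1.norm
  refine h2.congr_fun (fun t ht => ?_) measurableSet_Ioi
  simp only
  rw [Real.norm_eq_abs, abs_mul, abs_of_nonneg (w_nonneg k (le_of_lt ht))]

theorem integral_w_var (k : ℕ) :
    IntegrableOn (fun t => w k t * (t - ((k : ℝ) + 1)) ^ 2) (Set.Ioi 0) ∧
    ∫ t in Set.Ioi (0 : ℝ), w k t * (t - ((k : ℝ) + 1)) ^ 2 = (k : ℝ) + 1 := by
  have i0 := (integrableOn_w k).mul_const (((k : ℝ) + 1) ^ 2)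
  have i1 := (integrableOn_w_id k).mul_const (-(2 * ((k : ℝ) + 1)))
  have i2 := integrableOn_w_pow k 2
  have e : ∀ t : ℝ, w k t * (t - ((k : ℝ) + 1)) ^ 2 =
      w k t * ((k : ℝ) + 1) ^ 2 + (w k t * t * (-(2 * ((k : ℝ) + 1))) + w k t * t ^ 2) := by
    intro t; ring
  simp_rw [e]
  refine ⟨i0.add (i1.add i2), ?_⟩
  have i12 : IntegrableOn (fun t => w k t * t * (-(2 * ((k : ℝ) + 1))) + w k t * t ^ 2)
      (Set.Ioi 0) := i1.add i2
  rw [integral_add i0 i12, integral_add i1 i2, integral_mul_const, integral_mul_const, integral_w,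
    integral_w_id, integral_w_sq]
  ring

theorem w_compare (k : ℕ) (b : ℝ) :
    |(∫ t in Set.Ioi (0 : ℝ), w k t * |t - b|) - (|((k : ℝ) + 1) - b|)| ≤ √((k : ℝ) + 1) := by
  set s := √((k : ℝ) + 1) with hs
  have hk : (0 : ℝ) < (k : ℝ) + 1 := by positivity
  have hs0 : 0 < s := Real.sqrt_pos.mpr hk
  have hss : s * s = (k : ℝ) + 1 := Real.mul_self_sqrt hk.le
  have h1 : (∫ t in Set.Ioi (0 : ℝ), w k t * |t - b|) - (|((k : ℝ) + 1) - b|) =
      ∫ t in Set.Ioi (0 : ℝ), (w k t * |t - b| - w k t * |((k : ℝ) + 1) - b|) := by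
    rw [integral_sub (integrableOn_w_dev k b) ((integrableOn_w k).mul_const _),
      integral_mul_const, integral_w, one_mul]
  rw [h1]
  obtain ⟨v1, v2⟩ := integral_w_var k
  have hint : IntegrableOn (fun t => (w k t * (t - ((k : ℝ) + 1)) ^ 2) * (1 / (2 * s)) +
      w k t * (s / 2)) (Set.Ioi 0) := (v1.mul_const _).add ((integrableOn_w k).mul_const _)
  calc |∫ t in Set.Ioi (0 : ℝ), (w k t * |t - b| - w k t * |((k : ℝ) + 1) - b|)|
      ≤ ∫ t in Set.Ioi (0 : ℝ), abs (w k t * |t - b| - w k t * |((k : ℝ) + 1) - b|) :=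
        abs_integral_le_integral_abs
    _ ≤ ∫ t in Set.Ioi (0 : ℝ), ((w k t * (t - ((k : ℝ) + 1)) ^ 2) * (1 / (2 * s)) +
          w k t * (s / 2)) := by
        refine setIntegral_mono_on ?_ hint measurableSet_Ioi fun t ht => ?_
        · exact ((integrableOn_w_dev k b).sub ((integrableOn_w k).mul_const _)).abs
        · have hw := w_nonneg k (le_of_lt ht)
          rw [← mul_sub, abs_mul, abs_of_nonneg hw]
          have h2 : |(|t - b| - |((k : ℝ) + 1) - b|)| ≤ |t - ((k : ℝ) + 1)| := by
            have := abs_abs_sub_abs_le_abs_sub (t - b) (((k : ℝ) + 1) - b)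
            refine le_trans this (le_of_eq ?_)
            congr 1
            ring
          have h3 : |t - ((k : ℝ) + 1)| ≤
              (t - ((k : ℝ) + 1)) ^ 2 * (1 / (2 * s)) + s / 2 := by
            have h4 : 0 ≤ (|t - ((k : ℝ) + 1)| - s) ^ 2 := sq_nonneg _
            have h5 : |t - ((k : ℝ) + 1)| ^ 2 = (t - ((k : ℝ) + 1)) ^ 2 := sq_abs _
            have h6 : (t - ((k : ℝ) + 1)) ^ 2 * (1 / (2 * s)) + s / 2 =
                ((t - ((k : ℝ) + 1)) ^ 2 + s * s) / (2 * s) := by
              field_simp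
            rw [h6, le_div_iff₀ (by positivity)]
            nlinarith
          calc w k t * |(|t - b| - |((k : ℝ) + 1) - b|)| ≤ w k t * |t - ((k : ℝ) + 1)| :=
                mul_le_mul_of_nonneg_left h2 hw
            _ ≤ w k t * ((t - ((k : ℝ) + 1)) ^ 2 * (1 / (2 * s)) + s / 2) :=
                mul_le_mul_of_nonneg_left h3 hw
            _ = _ := by ring
    _ = s := by
        rw [integral_add (v1.mul_const _) ((integrableOn_w k).mul_const _), integral_mul_const,
          integral_mul_const, v2, integral_w]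
        rw [← hss]
        field_simp
        ring

/-! ### The law `nu` -/

variable {n : ℕ} {R : Fin n → Fin n → Prop}

theorem expF (u v : Fin n) (t : ℝ) :
    Real.exp (-t) * Ff R u v t = ∑ k ∈ Finset.range n, bq R u v k * w k t := by
  unfold Ff w
  rw [Finset.mul_sum]
  refine Finset.sum_congr rfl fun k _ => ?_
  ring

/-- The integral of `f` times the density. -/
theorem integral_Gd (u v : Fin n) (f : ℝ → ℝ)
    (h1 : ∀ k, IntegrableOn (fun t => w k t * f t) (Set.Ioi 0))
    (h2 : ∀ k, IntegrableOn (fun t => w k t * f (-t)) (Set.Ioi 0)) :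
    Integrable (fun t => Gd R u v t * f t) ∧
    ∫ t, Gd R u v t * f t = ∑ k ∈ Finset.range n, bq R u v k * (∫ t in Set.Ioi (0 : ℝ), w k t * f t)
      + ∑ k ∈ Finset.range n, bq R v u k * (∫ t in Set.Ioi (0 : ℝ), w k t * f (-t)) := by
  -- the positive part
  have p1 : IntegrableOn (fun t => ∑ k ∈ Finset.range n, bq R u v k * (w k t * f t))
      (Set.Ioi 0) := integrable_finsetSum _ fun k _ => (h1 k).const_mul _
  have p2 : IntegrableOn (fun t => Gd R u v t * f t) (Set.Ioi 0) := by
    refine p1.congr_fun (fun t ht => ?_) measurableSet_Ioi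
    have ht' : (0 : ℝ) ≤ t := le_of_lt ht
    simp only [Gd, ht', if_true]
    rw [expF, Finset.sum_mul]
    refine Finset.sum_congr rfl fun k _ => ?_
    ring
  have p3 : ∫ t in Set.Ioi (0 : ℝ), Gd R u v t * f t =
      ∑ k ∈ Finset.range n, bq R u v k * (∫ t in Set.Ioi (0 : ℝ), w k t * f t) := by
    have e : ∫ t in Set.Ioi (0 : ℝ), Gd R u v t * f t =
        ∫ t in Set.Ioi (0 : ℝ), ∑ k ∈ Finset.range n, bq R u v k * (w k t * f t) := by
      refine setIntegral_congr_fun measurableSet_Ioi fun t ht => ?_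
      have ht' : (0 : ℝ) ≤ t := le_of_lt ht
      simp only [Gd, ht', if_true]
      rw [expF, Finset.sum_mul]
      refine Finset.sum_congr rfl fun k _ => ?_
      ring
    rw [e, integral_finsetSum _ fun k _ => (h1 k).const_mul _]
    refine Finset.sum_congr rfl fun k _ => ?_
    rw [integral_const_mul]
  -- the negative part
  have q1 : IntegrableOn (fun t => ∑ k ∈ Finset.range n, bq R v u k * (w k t * f (-t)))
      (Set.Ioi 0) := integrable_finsetSum _ fun k _ => (h2 k).const_mul _
  have hneg : MeasurePreserving (Neg.neg : ℝ → ℝ) volume volume :=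
    Measure.measurePreserving_neg volume
  have hemb : MeasurableEmbedding (Neg.neg : ℝ → ℝ) := (MeasurableEquiv.neg ℝ).measurableEmbedding
  have hpre : (Neg.neg : ℝ → ℝ) ⁻¹' Set.Ioi 0 = Set.Iio 0 := by
    ext t; simp
  have hcongr : ∀ t ∈ Set.Iio (0 : ℝ), Gd R u v t * f t =
      ((fun t => ∑ k ∈ Finset.range n, bq R v u k * (w k t * f (-t))) ∘ (Neg.neg : ℝ → ℝ)) t := by
    intro t ht
    have ht' : ¬ (0 : ℝ) ≤ t := not_le.mpr ht
    simp only [Gd, ht', if_false, Function.comp, neg_neg]
    have := expF (R := R) v u (-t)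
    rw [neg_neg] at this
    rw [this, Finset.sum_mul]
    refine Finset.sum_congr rfl fun k _ => ?_
    ring
  have q2 : IntegrableOn ((fun t => ∑ k ∈ Finset.range n, bq R v u k * (w k t * f (-t))) ∘
      (Neg.neg : ℝ → ℝ)) (Set.Iio 0) := by
    have := (hneg.integrableOn_comp_preimage hemb).mpr q1
    rwa [hpre] at this
  have q3 : IntegrableOn (fun t => Gd R u v t * f t) (Set.Iio 0) :=
    q2.congr_fun (fun t ht => (hcongr t ht).symm) measurableSet_Iio
  have q4 : ∫ t in Set.Iio (0 : ℝ), Gd R u v t * f t =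
      ∑ k ∈ Finset.range n, bq R v u k * (∫ t in Set.Ioi (0 : ℝ), w k t * f (-t)) := by
    rw [setIntegral_congr_fun measurableSet_Iio hcongr]
    have := hneg.setIntegral_preimage_emb hemb
      (fun t => ∑ k ∈ Finset.range n, bq R v u k * (w k t * f (-t))) (Set.Ioi 0)
    rw [hpre] at this
    simp only [Function.comp]
    rw [this, integral_finsetSum _ fun k _ => (h2 k).const_mul _]
    refine Finset.sum_congr rfl fun k _ => ?_
    rw [integral_const_mul]
  have q5 : IntegrableOn (fun t => Gd R u v t * f t) (Set.Iic 0) :=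
    (integrableOn_Iic_iff_integrableOn_Iio enorm_ne_top).mpr q3
  have hall : Integrable (fun t => Gd R u v t * f t) := by
    rw [← integrableOn_univ, ← Set.Iic_union_Ioi (a := (0 : ℝ))]
    exact q5.union p2
  refine ⟨hall, ?_⟩
  rw [← p3, ← q4, ← integral_Iic_eq_integral_Iio, add_comm,
    ← intervalIntegral.integral_Iic_add_Ioi q5 p2]

/-- Expectations of functions of the difference. -/
theorem Ex_df (u v : Fin n) (huv : u ≠ v) (F : ℝ → ℝ) :
    Ex R (fun σ => F (df σ u v)) = ∑ k ∈ Finset.range n, bq R u v k * F ((k : ℝ) + 1) +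
      ∑ k ∈ Finset.range n, bq R v u k * F (-((k : ℝ) + 1)) := by
  classical
  have key : ∀ σ : Equiv.Perm (Fin n), F (df σ u v) =
      ∑ k ∈ Finset.range n, F ((k : ℝ) + 1) * (if po σ v = po σ u + (k + 1) then 1 else 0) +
      ∑ k ∈ Finset.range n, F (-((k : ℝ) + 1)) *
        (if po σ u = po σ v + (k + 1) then 1 else 0) := by
    intro σ
    rcases po_lt_or (σ := σ) huv with h | h
    · obtain ⟨k, hk⟩ : ∃ k, po σ v = po σ u + (k + 1) := ⟨po σ v - po σ u - 1, by omega⟩
      have hkn : k ∈ Finset.range n := by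
        rw [Finset.mem_range]
        have := po_lt_n σ v
        omega
      rw [Finset.sum_eq_single_of_mem k hkn, Finset.sum_eq_zero]
      · rw [if_pos hk, mul_one, add_zero, df, hk]
        congr 1
        push_cast
        ring
      · intro j _
        rw [if_neg (by omega), mul_zero]
      · intro j _ hj
        rw [if_neg (by omega), mul_zero]
    · obtain ⟨k, hk⟩ : ∃ k, po σ u = po σ v + (k + 1) := ⟨po σ u - po σ v - 1, by omega⟩
      have hkn : k ∈ Finset.range n := by
        rw [Finset.mem_range]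
        have := po_lt_n σ u
        omega
      rw [Finset.sum_eq_zero, zero_add, Finset.sum_eq_single_of_mem k hkn]
      · rw [if_pos hk, mul_one, df, hk]
        congr 1
        push_cast
        ring
      · intro j _ hj
        rw [if_neg (by omega), mul_zero]
      · intro j _
        rw [if_neg (by omega), mul_zero]
  simp_rw [key]
  rw [Ex_add, Ex_sum, Ex_sum]
  congr 1
  · refine Finset.sum_congr rfl fun k _ => ?_
    rw [Ex_mul, bq, Pr_eq_Ex]
    ring
  · refine Finset.sum_congr rfl fun k _ => ?_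
    rw [Ex_mul, bq, Pr_eq_Ex]
    ring

/-- Integrals for the law `nu`. -/
theorem nu_integral (gin : GinStmt) (hne : (LX R).Nonempty) {u v : Fin n} (huv : u ≠ v) (f : ℝ → ℝ)
    (h1 : ∀ k, IntegrableOn (fun t => w k t * f t) (Set.Ioi 0))
    (h2 : ∀ k, IntegrableOn (fun t => w k t * f (-t)) (Set.Ioi 0)) :
    Integrable f (nu R u v) ∧
    ∫ t, f t ∂(nu R u v) = ∑ k ∈ Finset.range n, bq R u v k * (∫ t in Set.Ioi (0 : ℝ), w k t * f t)
      + ∑ k ∈ Finset.range n, bq R v u k * (∫ t in Set.Ioi (0 : ℝ), w k t * f (-t)) := by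
  obtain ⟨g1, g2, _⟩ := gin n R u v hne huv
  obtain ⟨i1, i2⟩ := integral_Gd (R := R) u v f h1 h2
  have hm : Measurable fun t => ENNReal.ofReal (Gd R u v t) := g1.ennreal_ofReal
  have hlt : ∀ᵐ t ∂(volume : Measure ℝ), ENNReal.ofReal (Gd R u v t) < ⊤ :=
    Filter.Eventually.of_forall fun t => ENNReal.ofReal_lt_top
  have he : ∀ t, (ENNReal.ofReal (Gd R u v t)).toReal • f t = Gd R u v t * f t := by
    intro t
    rw [ENNReal.toReal_ofReal (g2 t), smul_eq_mul]
  constructor
  · rw [nu, integrable_withDensity_iff_integrable_smul' hm hlt]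
    simp_rw [he]
    exact i1
  · rw [nu, integral_withDensity_eq_integral_toReal_smul hm hlt]
    simp_rw [he]
    exact i2

/-- Jensen for the square root. -/
theorem Ex_sqrt_le (hne : (LX R).Nonempty) (X : Equiv.Perm (Fin n) → ℝ)
    (hX : ∀ σ ∈ LX R, 1 ≤ X σ) : Ex R (fun σ => √(X σ)) ≤ √(Ex R X) := by
  have hE : 1 ≤ Ex R X := by
    rw [← Ex_const (R := R) hne 1]
    exact Ex_mono hX
  set s := √(Ex R X) with hs
  have hs0 : 0 < s := Real.sqrt_pos.mpr (by linarith)
  have hss : s * s = Ex R X := Real.mul_self_sqrt (by linarith)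
  have h1 : Ex R (fun σ => √(X σ)) ≤ Ex R (fun σ => (1 / (2 * s)) * X σ + s / 2) := by
    refine Ex_mono fun σ hσ => ?_
    have hx : 0 ≤ X σ := le_trans zero_le_one (hX σ hσ)
    have h2 : √(X σ) * √(X σ) = X σ := Real.mul_self_sqrt hx
    have h3 : (1 / (2 * s)) * X σ + s / 2 = (X σ + s * s) / (2 * s) := by
      field_simp
    rw [h3, le_div_iff₀ (by positivity)]
    nlinarith [sq_nonneg (√(X σ) - s)]
  refine le_trans h1 (le_of_eq ?_)
  rw [Ex_add, Ex_mul, Ex_const hne, ← hss]
  field_simp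
  ring

theorem bq_nonneg (u v : Fin n) (k : ℕ) : 0 ≤ bq R u v k := Pr_nonneg _

/-- NOI. -/
theorem noi (gin : GinStmt) : NoiStmt := by
  intro n R u v hne huv
  have hid := nu_integral gin hne huv (fun t => t) integrableOn_w_id (by
    intro k
    refine (integrableOn_w_id k).neg.congr_fun (fun t _ => ?_) measurableSet_Ioi
    simp)
  refine ⟨hid.1, ?_, ?_⟩
  · rw [mea, hid.2, gp, Ex_df u v huv (fun t => t)]
    congr 1
    · refine Finset.sum_congr rfl fun k _ => ?_
      rw [integral_w_id]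
    · refine Finset.sum_congr rfl fun k _ => ?_
      simp_rw [mul_neg]
      rw [integral_neg, integral_w_id]
      ring
  · intro b
    have e2 : ∀ t : ℝ, |-t - b| = |t - (-b)| := by
      intro t
      rw [← abs_neg]
      congr 1
      ring
    have hdev := nu_integral gin hne huv (fun t => |t - b|) (fun k => integrableOn_w_dev k b) (by
      intro k
      simp_rw [e2]
      exact integrableOn_w_dev k (-b))
    rw [hdev.2, Ex_df u v huv (fun t => |t - b|)]
    simp_rw [e2]
    have h1 : ∀ k : ℕ, abs (bq R u v k * (∫ t in Set.Ioi (0 : ℝ), w k t * |t - b|) -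
        bq R u v k * |((k : ℝ) + 1) - b|) ≤ bq R u v k * √((k : ℝ) + 1) := by
      intro k
      rw [← mul_sub, abs_mul, abs_of_nonneg (bq_nonneg u v k)]
      exact mul_le_mul_of_nonneg_left (w_compare k b) (bq_nonneg u v k)
    have h2 : ∀ k : ℕ, abs (bq R v u k * (∫ t in Set.Ioi (0 : ℝ), w k t * |t - (-b)|) -
        bq R v u k * |((k : ℝ) + 1) - (-b)|) ≤ bq R v u k * √((k : ℝ) + 1) := by
      intro k
      rw [← mul_sub, abs_mul, abs_of_nonneg (bq_nonneg v u k)]
      exact mul_le_mul_of_nonneg_left (w_compare k (-b)) (bq_nonneg v u k)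
    have h3 : Ex R (fun σ => √|df σ u v|) = ∑ k ∈ Finset.range n, bq R u v k * √((k : ℝ) + 1) +
        ∑ k ∈ Finset.range n, bq R v u k * √((k : ℝ) + 1) := by
      rw [Ex_df u v huv (fun t => √|t|)]
      congr 1
      · refine Finset.sum_congr rfl fun k _ => ?_
        rw [abs_of_nonneg (by positivity)]
      · refine Finset.sum_congr rfl fun k _ => ?_
        rw [abs_neg, abs_of_nonneg (by positivity)]
    have h4 : Ex R (fun σ => √|df σ u v|) ≤ √(Ex R fun σ => |df σ u v|) := by
      refine Ex_sqrt_le hne _ fun σ _ => ?_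
      unfold df
      rcases po_lt_or (σ := σ) huv with h | h
      · have h' : (po σ u : ℝ) + 1 ≤ po σ v := by exact_mod_cast h
        rw [abs_of_nonneg (by linarith)]
        linarith
      · have h' : (po σ v : ℝ) + 1 ≤ po σ u := by exact_mod_cast h
        rw [abs_of_nonpos (by linarith)]
        linarith
    refine le_trans ?_ h4
    rw [h3, add_sub_add_comm, ← Finset.sum_sub_distrib, ← Finset.sum_sub_distrib]
    refine le_trans (abs_add_le _ _) (add_le_add ?_ ?_)
    · exact le_trans (Finset.abs_sum_le_sum_abs _ _) (Finset.sum_le_sum fun k _ => h1 k)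
    · exact le_trans (Finset.abs_sum_le_sum_abs _ _) (Finset.sum_le_sum fun k _ => h2 k)

end

end Pool.Agent.Helper12.KS
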