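import Pool.Agent.Helper75.KS.GoalsX
import Pool.Agent.Helper96.GP.PEEL
import Pool.Agent.Helper12.GP.MST

/-!
# Packet KS-PRB: the laws are probability measures
-/

namespace Pool.Agent.Helper12.KS

open MeasureTheory
open Pool.Agent.Helper75.KS
open Pool.Agent.Helper89.GP (LX po Ex Pr hh Ch)

noncomputable section

theorem prob_P0 (n : ℕ) : IsProbabilityMeasure (P0 n) := by
  refine ⟨?_⟩
  have h := Pool.Agent.Helper12.GP.mst Pool.Agent.Helper96.GP.peel n
  rw [P0, withDensity_apply _ MeasurableSet.univ, Measure.restrict_univ]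
  exact h

theorem ae_P0 (n : ℕ) : ∀ᵐ x ∂(P0 n), x ∈ Ch (1 : Equiv.Perm (Fin n)) := by
  have h1 : P0 n ≪ volume.restrict (Ch (1 : Equiv.Perm (Fin n))) :=
    withDensity_absolutelyContinuous _ _
  exact h1.ae_le (ae_restrict_mem (Pool.Agent.Helper12.GP.measurableSet_Ch _))

theorem measurable_perm {n : ℕ} (σ : Equiv.Perm (Fin n)) :
    Measurable (fun (x : Fin n → ℝ) a => x (σ a)) :=
  measurable_pi_lambda _ fun a => measurable_pi_apply (σ a)

/-- PRB. -/
theorem prb (str : StrStmt) : PrbStmt := by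
  refine ⟨prob_P0, ae_P0, ?_⟩
  intro n R hne
  refine ⟨?_⟩
  have := prob_P0 n
  rw [str n R hne, Measure.smul_apply, Measure.finsetSum_apply]
  have h1 : ∀ σ ∈ LX R, ((P0 n).map fun x a => x (σ a)) Set.univ = 1 := by
    intro σ _
    rw [Measure.map_apply (measurable_perm σ) MeasurableSet.univ, Set.preimage_univ, measure_univ]
  rw [Finset.sum_congr rfl h1, Finset.sum_const, nsmul_eq_mul, mul_one, smul_eq_mul]
  refine ENNReal.inv_mul_cancel ?_ (ENNReal.natCast_ne_top _)
  exact_mod_cast hne.card_ne_zero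

end

end Pool.Agent.Helper12.KS
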